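import Pool.Agent.Y262.QE.Stm

/-!
Project QE (helper262), job EIG: an odd eigenvector of the forms is a weak eigenfunction of the
conformally changed surface.
-/

set_option autoImplicit false

open Set Filter Topology MeasureTheory
open scoped Real ContDiff ComplexConjugate

noncomputable section

namespace Pool.Agent.Y986.QE

open Pool.Agent.Y262.QE

section
variable {M : Type} [MetricSpace M] [CompactSpace M] [MeasurableSpace M] [BorelSpace M]
  {μ : Measure M}

theorem int_wm {w : M → ℝ} (hw : Continuous w) (hp : ∀ x, 0 < w x) (g : M → ℝ) :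
    ∫ x, g x ∂(wm μ w) = ∫ x, w x * g x ∂μ := by
  have h := integral_withDensity_eq_integral_smul (μ := μ) (f := fun x => Real.toNNReal (w x))
    (measurable_real_toNNReal.comp hw.measurable) g
  have e : wm μ w = μ.withDensity fun x => ((Real.toNNReal (w x) : NNReal) : ENNReal) := rfl
  rw [e, h]
  refine integral_congr_ae (Eventually.of_forall fun x => ?_)
  show (Real.toNNReal (w x)) • g x = w x * g x
  rw [NNReal.smul_def, Real.coe_toNNReal _ (hp x).le, smul_eq_mul]

theorem bdd_of_cont {f : M → ℝ} (hf : Continuous f) : ∃ C : ℝ, 0 ≤ C ∧ ∀ x, |f x| ≤ C := by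
  obtain ⟨C, hC⟩ := isCompact_univ.exists_bound_of_continuousOn (f := f) hf.continuousOn
  exact ⟨max C 0, le_max_right _ _, fun x => (hC x (mem_univ x)).trans (le_max_left _ _)⟩

theorem memLp_wm {w : M → ℝ} (hw : Continuous w) {u : M → ℝ} (hu : MemLp u 2 μ) :
    MemLp u 2 (wm μ w) := by
  obtain ⟨C, -, hC⟩ := bdd_of_cont hw
  have h1 : wm μ w ≤ (ENNReal.ofReal C) • μ := by
    rw [← withDensity_const]
    refine withDensity_mono (Eventually.of_forall fun x => ?_)
    exact ENNReal.ofReal_le_ofReal ((le_abs_self _).trans (hC x))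
  exact (hu.smul_measure ENNReal.ofReal_ne_top).mono_measure h1

theorem int_sq (f : Lp ℝ 2 μ) : ∫ x, (f x) ^ 2 ∂μ = ‖f‖ ^ 2 := by
  rw [← real_inner_self_eq_norm_sq, L2.inner_def]
  refine integral_congr_ae (Eventually.of_forall fun x => ?_)
  show (f x) ^ 2 = inner ℝ (f x) (f x)
  rw [real_inner_self_eq_norm_sq, Real.norm_eq_abs, sq_abs]

theorem int_sqC (f : Lp ℂ 2 μ) : ∫ x, ‖f x‖ ^ 2 ∂μ = ‖f‖ ^ 2 := by
  rw [← real_inner_self_eq_norm_sq, L2.inner_def]
  refine integral_congr_ae (Eventually.of_forall fun x => ?_)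
  show ‖f x‖ ^ 2 = inner ℝ (f x) (f x)
  rw [real_inner_self_eq_norm_sq]

theorem integrable_sq (f : Lp ℝ 2 μ) : Integrable (fun x => (f x) ^ 2) μ :=
  (Lp.memLp f).integrable_sq

theorem fst_le (x : WithLp 2 (Lp ℝ 2 μ × Lp ℂ 2 μ)) : ‖x.fst‖ ^ 2 ≤ ‖x‖ ^ 2 := by
  rw [WithLp.prod_norm_sq_eq_of_L2]
  exact le_add_of_nonneg_right (sq_nonneg _)

theorem snd_le (x : WithLp 2 (Lp ℝ 2 μ × Lp ℂ 2 μ)) : ‖x.snd‖ ^ 2 ≤ ‖x‖ ^ 2 := by
  rw [WithLp.prod_norm_sq_eq_of_L2 x]
  exact le_add_of_nonneg_left (sq_nonneg _)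

/-- an integral over the surface is invariant under the involution -/
theorem int_sig {σ : M → M} (hinv : ∀ x, σ (σ x) = x) (hc : Continuous σ)
    (hm : MeasurePreserving σ μ μ) (g : M → ℝ) : ∫ x, g (σ x) ∂μ = ∫ x, g x ∂μ := by
  let e : M ≃ᵐ M := { toFun := σ, invFun := σ, left_inv := hinv, right_inv := hinv,
                      measurable_toFun := hc.measurable, measurable_invFun := hc.measurable }
  have he : MeasurePreserving (⇑e) μ μ := hm
  exact he.integral_comp' g

end

theorem eig : StGr → StFin → StConf → StSig → StDen → StEig := by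
  intro hGr hFin hConf hSig hDen M _ _ _ _ μ D hD L Φ σ hcyl w hw hp hwσ lam v hv hev
  obtain ⟨hfin, -⟩ := hFin M μ D hD
  obtain ⟨hG1, -, hG3⟩ := hGr M μ D hD
  obtain ⟨-, hcgr⟩ := hConf M μ D hD w hw hp
  obtain ⟨hS1, hS2⟩ := hSig M μ D hD L Φ σ hcyl
  obtain ⟨hD1, hD2⟩ := hDen M μ D hD L Φ σ hcyl
  obtain ⟨hodd, F, f, hF, hlim⟩ := hD2 v hv
  obtain ⟨C, hC0, hC⟩ := bdd_of_cont hw
  -- norms
  have hn : Tendsto (fun k => ‖f k - v‖ ^ 2) atTop (𝓝 0) := by
    have h1 : Tendsto (fun k => ‖f k - v‖) atTop (𝓝 0) := tendsto_iff_norm_sub_tendsto_zero.1 hlim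
    have h2 := h1.pow 2
    simpa using h2
  have hintF : ∀ {G : M → ℝ}, D.C1 G → Continuous G := fun hG => (hG1 _ hG).1
  -- integrability of inner products of gradients
  have hintG : ∀ {G G' : M → ℝ}, D.C1 G → D.C1 G' →
      Integrable (fun x => inner ℝ (D.gr G x) (D.gr G' x)) μ := by
    intro G G' hG hG'
    obtain ⟨-, hm, A, hA⟩ := hG1 _ hG
    obtain ⟨-, hm', A', hA'⟩ := hG1 _ hG'
    refine Integrable.of_bound (hm.inner hm').aestronglyMeasurable (|A| * |A'|)
      (Eventually.of_forall fun x => ?_)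
    rw [Real.norm_eq_abs]
    refine (abs_real_inner_le_norm _ _).trans ?_
    exact mul_le_mul ((hA x).trans (le_abs_self _)) ((hA' x).trans (le_abs_self _)) (norm_nonneg _)
      (abs_nonneg _)
  -- the inner product of changed gradients
  have hcin : ∀ (G G' : M → ℝ) (x : M), w x * inner ℝ ((D.conf w).gr G x) ((D.conf w).gr G' x) =
      inner ℝ (D.gr G x) (D.gr G' x) := by
    intro G G' x
    rw [hcgr, hcgr, real_inner_smul_left, real_inner_smul_right]
    have h1 : Real.sqrt (w x) * Real.sqrt (w x) = w x := Real.mul_self_sqrt (hp x).le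
    have h2 : Real.sqrt (w x) ≠ 0 := (Real.sqrt_pos.2 (hp x)).ne'
    calc w x * ((Real.sqrt (w x))⁻¹ * ((Real.sqrt (w x))⁻¹ * inner ℝ (D.gr G x) (D.gr G' x)))
        = (Real.sqrt (w x) * Real.sqrt (w x)) *
          ((Real.sqrt (w x))⁻¹ * ((Real.sqrt (w x))⁻¹ * inner ℝ (D.gr G x) (D.gr G' x))) := by
          rw [h1]
      _ = (Real.sqrt (w x) * (Real.sqrt (w x))⁻¹) * (Real.sqrt (w x) * (Real.sqrt (w x))⁻¹) *
          inner ℝ (D.gr G x) (D.gr G' x) := by ring
      _ = inner ℝ (D.gr G x) (D.gr G' x) := by rw [mul_inv_cancel₀ h2, one_mul, one_mul]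
  have huI : Integrable (fun x => (v.fst : M → ℝ) x) μ := (Lp.memLp v.fst).integrable (by norm_num)
  refine ⟨memLp_wm hw (Lp.memLp v.fst), F, fun k => (hF k).1, ?_, ?_, ?_⟩
  · -- convergence in L^2
    have hle : ∀ k, ∫ x, (F k x - (v.fst : M → ℝ) x) ^ 2 ∂(wm μ w) ≤ C * ‖f k - v‖ ^ 2 := by
      intro k
      rw [int_wm hw hp]
      have e1 : ∫ x, w x * (F k x - (v.fst : M → ℝ) x) ^ 2 ∂μ =
          ∫ x, w x * (((f k - v).fst : M → ℝ) x) ^ 2 ∂μ := by
        refine integral_congr_ae ?_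
        have h1 := (hF k).2.2.2.1
        have h2 : (((f k - v).fst : Lp ℝ 2 μ) : M → ℝ) =ᵐ[μ] ((f k).fst : M → ℝ) - (v.fst : M → ℝ) := by
          rw [WithLp.sub_fst]
          exact Lp.coeFn_sub _ _
        filter_upwards [h1, h2] with x hx1 hx2
        rw [hx2, Pi.sub_apply, hx1]
      rw [e1, mul_comm C]
      calc ∫ x, w x * (((f k - v).fst : M → ℝ) x) ^ 2 ∂μ
          ≤ ∫ x, C * (((f k - v).fst : M → ℝ) x) ^ 2 ∂μ := by
            refine integral_mono_of_nonneg (Eventually.of_forall fun x => ?_)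
              ((integrable_sq _).const_mul C) (Eventually.of_forall fun x => ?_)
            · exact mul_nonneg (hp x).le (sq_nonneg _)
            · exact mul_le_mul_of_nonneg_right ((le_abs_self _).trans (hC x)) (sq_nonneg _)
        _ = C * ‖(f k - v).fst‖ ^ 2 := by rw [integral_const_mul, int_sq]
        _ ≤ C * ‖f k - v‖ ^ 2 := mul_le_mul_of_nonneg_left (fst_le _) hC0
        _ = ‖f k - v‖ ^ 2 * C := mul_comm _ _
    refine squeeze_zero (fun k => integral_nonneg fun x => sq_nonneg _) hle ?_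
    simpa using hn.const_mul C
  · -- the gradients form a Cauchy sequence
    have heq : ∀ p : ℕ × ℕ, ∫ x, ‖(D.conf w).gr (F p.1) x - (D.conf w).gr (F p.2) x‖ ^ 2 ∂(wm μ w) =
        ‖(f p.1 - f p.2).snd‖ ^ 2 := by
      intro p
      rw [int_wm hw hp, ← int_sqC]
      refine integral_congr_ae ?_
      have h1 := (hF p.1).2.2.2.2
      have h2 := (hF p.2).2.2.2.2
      have h3 : (((f p.1 - f p.2).snd : Lp ℂ 2 μ) : M → ℂ) =ᵐ[μ]
          ((f p.1).snd : M → ℂ) - ((f p.2).snd : M → ℂ) := by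
        rw [WithLp.sub_snd]
        exact Lp.coeFn_sub _ _
      filter_upwards [h1, h2, h3] with x hx1 hx2 hx3
      rw [hx3, Pi.sub_apply, hx1, hx2, hcgr, hcgr, ← smul_sub, norm_smul, mul_pow, Real.norm_eq_abs,
        sq_abs, inv_pow, Real.sq_sqrt (hp x).le, ← mul_assoc, mul_inv_cancel₀ (hp x).ne', one_mul]
    simp only [heq]
    have h2 : Tendsto (fun p : ℕ × ℕ => f p.1 - f p.2) atTop (𝓝 (v - v)) := by
      rw [← prod_atTop_atTop_eq]
      exact (hlim.comp tendsto_fst).sub (hlim.comp tendsto_snd)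
    have h3 : Tendsto (fun p : ℕ × ℕ => ‖f p.1 - f p.2‖ ^ 2) atTop (𝓝 0) := by
      have := (h2.norm).pow 2
      simpa using this
    exact squeeze_zero (fun p => sq_nonneg _) (fun p => snd_le _) h3
  · intro G hG'
    have hG : D.C1 G := hG'
    -- odd and even parts
    set Go : M → ℝ := fun x => (1 / 2) * G x + (-1 / 2) * G (σ x) with hGo
    set Ge : M → ℝ := fun x => (1 / 2) * G x + (1 / 2) * G (σ x) with hGe
    have hGσ : D.C1 fun x => G (σ x) := hS1 G hG
    obtain ⟨hGo1, -⟩ := hG3 G (fun x => G (σ x)) hG hGσ (1 / 2) (-1 / 2)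
    obtain ⟨hGe1, -⟩ := hG3 G (fun x => G (σ x)) hG hGσ (1 / 2) (1 / 2)
    have hGoC : D.C1 Go := hGo1
    have hGeC : D.C1 Ge := hGe1
    have hsum : (fun x => 1 * Go x + 1 * Ge x) = G := by
      funext x; simp only [hGo, hGe]; ring
    have hgr : ∀ x, D.gr G x = D.gr Go x + D.gr Ge x := by
      intro x
      have := (hG3 Go Ge hGoC hGeC 1 1).2 x
      rw [hsum] at this
      rw [this, one_smul, one_smul]
    have hGoσ : ∀ x, Go (σ x) = - Go x := by
      intro x; simp only [hGo, hcyl.inv]; ring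
    have hGeσ : ∀ x, Ge (σ x) = Ge x := by
      intro x; simp only [hGe, hcyl.inv]; ring
    have e0 : ∀ k, ∫ x, inner ℝ (D.gr (F k) x) (D.gr Ge x) ∂μ = 0 := by
      intro k
      have h1 := int_sig hcyl.inv hcyl.cont hcyl.mp
        (fun x => inner ℝ (D.gr (F k) x) (D.gr Ge x))
      have h2 : ∫ x, inner ℝ (D.gr (F k) (σ x)) (D.gr Ge (σ x)) ∂μ =
          ∫ x, -(inner ℝ (D.gr (F k) x) (D.gr Ge x)) ∂μ := by
        refine integral_congr_ae (Eventually.of_forall fun x => ?_)
        show inner ℝ (D.gr (F k) (σ x)) (D.gr Ge (σ x)) = -(inner ℝ (D.gr (F k) x) (D.gr Ge x))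
        rw [← hS2 (F k) Ge (hF k).1 hGeC x]
        have e1 : (fun x => F k (σ x)) = fun x => (-1) * F k x + 0 * F k x := by
          funext y; rw [(hF k).2.1]; ring
        have e2 : (fun x => Ge (σ x)) = Ge := by funext y; exact hGeσ y
        rw [e1, e2, (hG3 (F k) (F k) (hF k).1 (hF k).1 (-1) 0).2 x]
        rw [zero_smul, add_zero, neg_one_smul, inner_neg_left]
      rw [integral_neg] at h2
      have h3 := h1.symm.trans h2
      linarith
    have e1 : ∫ x, w x * ((v.fst : M → ℝ) x * Ge x) ∂μ = 0 := by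
      have h1 := int_sig hcyl.inv hcyl.cont hcyl.mp
        (fun x => w x * ((v.fst : M → ℝ) x * Ge x))
      have h2 : ∫ x, w (σ x) * ((v.fst : M → ℝ) (σ x) * Ge (σ x)) ∂μ =
          ∫ x, -(w x * ((v.fst : M → ℝ) x * Ge x)) ∂μ := by
        refine integral_congr_ae ?_
        filter_upwards [hodd] with x hx
        rw [hx, hGeσ, hwσ]; ring
      rw [integral_neg] at h2
      have h3 := h1.symm.trans h2
      linarith
    obtain ⟨v', hv', hv1, hv2⟩ := hD1 Go hGoC hGoσ
    have e2 : ∀ k, ∫ x, inner ℝ ((D.conf w).gr (F k) x) ((D.conf w).gr G x) ∂(wm μ w) =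
        inner ℝ (f k).snd v'.snd := by
      intro k
      rw [int_wm hw hp, L2.inner_def]
      calc ∫ x, w x * inner ℝ ((D.conf w).gr (F k) x) ((D.conf w).gr G x) ∂μ
          = ∫ x, (inner ℝ (D.gr (F k) x) (D.gr Go x) + inner ℝ (D.gr (F k) x) (D.gr Ge x)) ∂μ := by
            refine integral_congr_ae (Eventually.of_forall fun x => ?_)
            show w x * inner ℝ ((D.conf w).gr (F k) x) ((D.conf w).gr G x) = _
            rw [hcin, hgr, inner_add_right]
        _ = ∫ x, inner ℝ (D.gr (F k) x) (D.gr Go x) ∂μ := by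
            rw [integral_add (hintG (hF k).1 hGoC) (hintG (hF k).1 hGeC), e0, add_zero]
        _ = _ := by
            refine integral_congr_ae ?_
            filter_upwards [(hF k).2.2.2.2, hv2] with x hx1 hx2
            rw [hx1, hx2]
    simp only [e2]
    have e3 : lam * ∫ x, (v.fst : M → ℝ) x * G x ∂(wm μ w) = inner ℝ v.snd v'.snd := by
      rw [hev v' hv', int_wm hw hp]
      congr 1
      have hb : ∀ {G : M → ℝ}, Continuous G →
          Integrable (fun x => w x * ((v.fst : M → ℝ) x * G x)) μ := by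
        intro G hG
        have hc2 : Continuous fun x => w x * G x := hw.mul hG
        obtain ⟨A, -, hA⟩ := bdd_of_cont hc2
        have := huI.bdd_mul (f := fun x => w x * G x) (c := A) hc2.aestronglyMeasurable
          (Eventually.of_forall fun x => hA x)
        refine this.congr (Eventually.of_forall fun x => ?_)
        show w x * G x * (v.fst : M → ℝ) x = w x * ((v.fst : M → ℝ) x * G x)
        ring
      calc ∫ x, w x * ((v.fst : M → ℝ) x * G x) ∂μ
          = ∫ x, (w x * ((v.fst : M → ℝ) x * Go x) + w x * ((v.fst : M → ℝ) x * Ge x)) ∂μ := by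
            refine integral_congr_ae (Eventually.of_forall fun x => ?_)
            show w x * ((v.fst : M → ℝ) x * G x) = _
            have := congrFun hsum x
            simp only [one_mul] at this
            rw [← this]; ring
        _ = ∫ x, w x * ((v.fst : M → ℝ) x * Go x) ∂μ := by
            rw [integral_add (hb (hintF hGoC)) (hb (hintF hGeC)), e1, add_zero]
        _ = _ := by
            refine integral_congr_ae ?_
            filter_upwards [hv1] with x hx1
            rw [hx1]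
    rw [e3]
    have hsnd : Continuous (fun x : WithLp 2 (Lp ℝ 2 μ × Lp ℂ 2 μ) => x.snd) :=
      WithLp.continuous_snd 2 _ _
    have hc : Continuous (fun x : WithLp 2 (Lp ℝ 2 μ × Lp ℂ 2 μ) => inner ℝ x.snd v'.snd) :=
      hsnd.inner continuous_const
    exact (hc.tendsto v).comp hlim

end Pool.Agent.Y986.QE
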